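import Pool.Agent.W242.IM.Least

/-!
# The smallest Mahler measure above one of Hermitian matrices of blocks

Let `k ≥ 1` and consider the Hermitian matrices `A` of `k × k` blocks, of any size, all of whose
principal submatrices made of blocks have integral characteristic polynomials (for `k = 1`: integer
symmetric matrices and Hermitian matrices over imaginary quadratic integers; for `k = d`: the
conjugates of Hermitian matrices over the integers of a totally real or CM field of degree `d`).  Let
`M(A)` be the Mahler measure of `z ^ m χ_A(z + 1/z)`.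

Among the measures `M(A) > 1` of this class there is a smallest one.  Moreover there is `N` such that
every principal submatrix (made of blocks) of a matrix of the class with measure larger than `1`
contains a principal submatrix of at most `N` blocks of rows with measure larger than `1`, so the
minimum can be found among the matrices with at most `N` blocks of rows.
-/

set_option autoImplicit false

namespace Pool.Agent.Results.MP_dc0c68_nt.HermitianMinimum

open Polynomial

noncomputable section

/-- The polynomial `z ^ n p(z + 1/z)` for a polynomial `p` of degree `n`. -/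
def reciprocalOf (p : ℂ[X]) : ℂ[X] :=
  ∑ k ∈ Finset.range (p.natDegree + 1), C (p.coeff k) * (X ^ 2 + 1) ^ k * X ^ (p.natDegree - k)

/-- The Mahler measure of `z ^ n p(z + 1/z)`. -/
def traceMeasure (p : ℂ[X]) : ℝ := (reciprocalOf p).mahlerMeasure

/-- The principal submatrix of a matrix of `k × k` blocks with the blocks in `U`. -/
def blocks {n k : ℕ} (A : Matrix (Fin n × Fin k) (Fin n × Fin k) ℂ) (U : Finset (Fin n)) :
    Matrix (U × Fin k) (U × Fin k) ℂ :=
  A.submatrix (fun x => (x.1.1, x.2)) (fun x => (x.1.1, x.2))

/-- The Hermitian matrices of `k × k` blocks, all of whose principal submatrices made of blocks have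
a characteristic polynomial with integer coefficients. -/
def Integral {n k : ℕ} (A : Matrix (Fin n × Fin k) (Fin n × Fin k) ℂ) : Prop :=
  A.IsHermitian ∧
    ∀ U : Finset (Fin n), ∃ P : ℤ[X], P.map (Int.castRingHom ℂ) = (blocks A U).charpoly

theorem result (k : ℕ) (hk : 1 ≤ k) :
    ∃ (N n₀ : ℕ) (A₀ : Matrix (Fin n₀ × Fin k) (Fin n₀ × Fin k) ℂ), n₀ ≤ N ∧ Integral A₀ ∧
      1 < traceMeasure A₀.charpoly ∧
      (∀ (n : ℕ) (A : Matrix (Fin n × Fin k) (Fin n × Fin k) ℂ), Integral A →
        traceMeasure A.charpoly = 1 ∨ traceMeasure A₀.charpoly ≤ traceMeasure A.charpoly) ∧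
      (∀ (n : ℕ) (A : Matrix (Fin n × Fin k) (Fin n × Fin k) ℂ), Integral A →
        ∀ U : Finset (Fin n), traceMeasure (blocks A U).charpoly ≠ 1 →
          ∃ V ⊆ U, V.card ≤ N ∧ 1 < traceMeasure (blocks A V).charpoly) := by
  obtain ⟨N1, n0, A0, h1, h2, h3, h4⟩ := Pool.Agent.W242.IM.least_exists k hk
  obtain ⟨N2, μ, h5, h6⟩ := Pool.Agent.W242.IM.fin_small k
  refine ⟨max N1 N2, n0, A0, h1.trans (le_max_left _ _), h2, h3, h4, fun n A hA U hU => ?_⟩
  obtain ⟨V, hV, h7, h8⟩ := h6 n A hA.1 hA.2 U hU
  exact ⟨V, hV, h7.trans (le_max_right _ _), lt_of_lt_of_le h5 h8⟩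

end

end Pool.Agent.Results.MP_dc0c68_nt.HermitianMinimum
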