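import Mathlib
import Pool.Agent.W628.AbSalem.Core2
import Pool.Agent.W628.AbSalem.Conj2
import Pool.Agent.W628.AbSalem.Final

/-!
# MP_dc0c68_nt: zeros `α` with `α + 1/α` in a cyclotomic field

Let `f` be a nonzero integer polynomial with a complex zero `α` which lies in no cyclotomic field
while `α + 1/α` lies in a cyclotomic field.  Then the Mahler measure of `f` exceeds `1.21`, hence
that of Lehmer's polynomial.
-/

set_option autoImplicit false

namespace Pool.Agent.Results.MP_dc0c68_nt.QuadraticOverAbelian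

open Polynomial Pool.Agent.W628.AbSalem

lemma pow_twelve {z : ℂ} (hz : z ≠ 0) {n : ℤ} (h : z + z⁻¹ = (n : ℂ)) (h1 : -2 ≤ n)
    (h2 : n ≤ 2) : z ^ 12 = 1 := by
  have h3 : z ^ 2 = n * z - 1 := by
    have : (z + z⁻¹) * z = n * z := by rw [h]
    rw [add_mul, inv_mul_cancel₀ hz] at this
    linear_combination this
  interval_cases n
  · have h4 : (z + 1) ^ 2 = 0 := by push_cast at h3; linear_combination h3
    have h5 : z + 1 = 0 := pow_eq_zero_iff (by norm_num) |>.mp h4
    have h6 : z = -1 := by linear_combination h5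
    rw [h6]; norm_num
  · have h4 : z ^ 3 = 1 := by push_cast at h3; linear_combination (z - 1) * h3
    calc z ^ 12 = (z ^ 3) ^ 4 := by ring
      _ = 1 := by rw [h4]; norm_num
  · have h4 : z ^ 2 = -1 := by push_cast at h3; linear_combination h3
    calc z ^ 12 = (z ^ 2) ^ 6 := by ring
      _ = 1 := by rw [h4]; norm_num
  · have h4 : z ^ 3 = -1 := by push_cast at h3; linear_combination (z + 1) * h3
    calc z ^ 12 = (z ^ 3) ^ 4 := by ring
      _ = 1 := by rw [h4]; norm_num
  · have h4 : (z - 1) ^ 2 = 0 := by push_cast at h3; linear_combination h3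
    have h5 : z - 1 = 0 := pow_eq_zero_iff (by norm_num) |>.mp h4
    have h6 : z = 1 := by linear_combination h5
    rw [h6]; norm_num

theorem result : ∀ f : ℤ[X], f ≠ 0 → ∀ α : ℂ, aeval α f = 0 →
    (∃ N : ℕ, 0 < N ∧ α + α⁻¹ ∈ IntermediateField.adjoin ℚ {z : ℂ | z ^ N = 1}) →
    (∀ N : ℕ, 0 < N → α ∉ IntermediateField.adjoin ℚ {z : ℂ | z ^ N = 1}) →
    1.21 < (f.map (Int.castRingHom ℂ)).mahlerMeasure := by
  classical
  intro f hf0 α hα hex hout
  have hα0 : α ≠ 0 := by
    rintro rfl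
    exact hout 1 one_pos (zero_mem _)
  set p := f.map (Int.castRingHom ℂ) with hp
  have hinjZ : Function.Injective (Int.castRingHom ℂ) := RingHom.injective_int _
  have hp0 : p ≠ 0 := (Polynomial.map_ne_zero_iff hinjZ).mpr hf0
  have hlc : p.leadingCoeff = ((f.leadingCoeff : ℤ) : ℂ) :=
    leadingCoeff_map_of_injective hinjZ f
  have hlcn : ‖p.leadingCoeff‖ = |((f.leadingCoeff : ℤ) : ℝ)| := by
    rw [hlc, Complex.norm_intCast]
  have hlf0 : f.leadingCoeff ≠ 0 := leadingCoeff_ne_zero.mpr hf0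
  have hlc1 : 1 ≤ ‖p.leadingCoeff‖ := by
    rw [hlcn]
    exact_mod_cast Int.one_le_abs hlf0
  by_cases hbig : 2 ≤ |f.leadingCoeff|
  · have h1 : (2 : ℝ) ≤ ‖p.leadingCoeff‖ := by
      rw [hlcn]
      exact_mod_cast hbig
    rw [mahlerMeasure_eq_leadingCoeff_mul_prod_roots]
    have h2 := prod_one_le p.roots
    nlinarith
  have hint : ∀ z : ℂ, aeval z f = 0 → IsIntegral ℤ z := by
    intro z hz
    have h1 : f.leadingCoeff = 1 ∨ f.leadingCoeff = -1 := by
      have h2 : |f.leadingCoeff| = 1 := by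
        have := Int.one_le_abs hlf0
        omega
      exact (abs_eq (by norm_num)).mp h2
    rcases h1 with h1 | h1
    · exact ⟨f, h1, hz⟩
    · refine ⟨-f, ?_, ?_⟩
      · rw [Monic, leadingCoeff_neg, h1]
        norm_num
      · rw [eval₂_neg, neg_eq_zero]
        exact hz
  obtain ⟨hN, hmem⟩ := Nat.find_spec hex
  have hmin := fun m (h : m < Nat.find hex) => Nat.find_min hex h
  set N := Nat.find hex with hNdef
  haveI : NeZero N := ⟨by omega⟩
  have hζ : IsPrimitiveRoot (Complex.exp (2 * Real.pi * Complex.I / N)) N :=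
    Complex.isPrimitiveRoot_exp N (NeZero.ne N)
  set ζ := Complex.exp (2 * Real.pi * Complex.I / N) with hζdef
  rw [cyc_eq hζ] at hmem
  have hαF : α ∉ IntermediateField.adjoin ℚ {ζ} := by
    rw [← cyc_eq hζ]
    exact hout N hN
  set F := IntermediateField.adjoin ℚ {ζ} with hF
  haveI hcyc : IsCyclotomicExtension {N} ℚ F := cyc_inst hζ
  haveI : NumberField F := IsCyclotomicExtension.numberField {N} ℚ F
  have hinv := inv_root2 hα0 F hmem hαF f hα
  have hinj : Function.Injective (algebraMap F ℂ) := (algebraMap F ℂ).injective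
  have hτC : IsIntegral ℤ (α + α⁻¹) := (hint α hα).add (hint _ hinv)
  set t : F := ⟨α + α⁻¹, hmem⟩ with ht
  have htint : IsIntegral ℤ t := (isIntegral_algebraMap_iff hinj).mp hτC
  have hmt : minpoly ℚ t = minpoly ℚ (α + α⁻¹) := (minpoly.algebraMap_eq hinj t).symm
  have hζF : IsPrimitiveRoot (⟨ζ, IntermediateField.mem_adjoin_simple_self ℚ ζ⟩ : F) N := by
    apply IsPrimitiveRoot.of_map_of_injective (f := algebraMap F ℂ) _ hinj
    exact hζ
  have hexZ : ∀ y : F, ∃ z : ℂ, (∃ s : F ≃ₐ[ℚ] F, y = s t) →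
      (1 ≤ ‖z‖ ∧ z + z⁻¹ = (y : ℂ) ∧ aeval z f = 0) := by
    intro y
    by_cases hy : ∃ s : F ≃ₐ[ℚ] F, y = s t
    · obtain ⟨s, rfl⟩ := hy
      have h1 : minpoly ℚ ((s t : F) : ℂ) = minpoly ℚ (α + α⁻¹) := by
        rw [← hmt, ← minpoly.algEquiv_eq s t]
        exact minpoly.algebraMap_eq hinj (s t)
      obtain ⟨z, hz1, hz0, hz2, hz3⟩ := conj_lift2 (hint α hα) hα0 h1
      by_cases hn : 1 ≤ ‖z‖
      · exact ⟨z, fun _ => ⟨hn, hz1, hz2 f hα⟩⟩
      · refine ⟨z⁻¹, fun _ => ⟨?_, ?_, hz3 f hinv⟩⟩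
        · push Not at hn
          rw [norm_inv]
          exact (one_le_inv₀ (norm_pos_iff.mpr hz0)).mpr hn.le
        · rw [inv_inv, add_comm]
          exact hz1
    · exact ⟨0, fun h => absurd h hy⟩
  choose Z hZ using hexZ
  have hZs : ∀ s : F ≃ₐ[ℚ] F, 1 ≤ ‖Z (s t)‖ ∧ Z (s t) + (Z (s t))⁻¹ = F.val (s t) :=
    fun s => ⟨(hZ (s t) ⟨s, rfl⟩).1, (hZ (s t) ⟨s, rfl⟩).2.1⟩
  have hZt : 1 ≤ ‖Z t‖ ∧ Z t + (Z t)⁻¹ = α + α⁻¹ ∧ aeval (Z t) f = 0 := hZ t ⟨1, rfl⟩
  have hZt0 : Z t ≠ 0 := by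
    intro h
    have := hZt.1
    rw [h, norm_zero] at this
    linarith
  have hpm := pm_of_add_inv hZt0 hα0 hZt.2.1
  have hroot : ∀ n : ℕ, 0 < n → (Z t) ^ n ≠ 1 := by
    intro n hn h
    apply hout n hn
    apply IntermediateField.subset_adjoin
    change α ^ n = 1
    rcases hpm with h1 | h1
    · rw [← h1]
      exact h
    · rw [h1, inv_pow, inv_eq_one] at h
      exact h
  have hout' : Z t ∉ Set.range F.val := by
    rintro ⟨x, hx⟩
    have h2 : Z t ∈ F := by
      rw [← hx]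
      exact x.2
    rcases hpm with h1 | h1
    · exact hαF (h1 ▸ h2)
    · apply hαF
      rw [h1] at h2
      have := inv_mem h2
      rwa [inv_inv] at this
  set M := p.mahlerMeasure with hMdef
  have hM : ∀ S : Finset F, (∀ y ∈ S, ∃ s : F ≃ₐ[ℚ] F, y = s t) → ∏ y ∈ S, ‖Z y‖ ≤ M := by
    intro S hS
    have h1 : ∏ z ∈ S.image Z, ‖z‖ = ∏ y ∈ S, ‖Z y‖ := by
      apply Finset.prod_image
      intro a ha b hb hab
      apply Subtype.ext
      rw [← (hZ a (hS a ha)).2.1, ← (hZ b (hS b hb)).2.1, hab]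
    rw [← h1]
    apply prod_le_mahler hlc1 hp0
    intro z hz
    obtain ⟨y, hy, rfl⟩ := Finset.mem_image.mp hz
    have h2 := (hZ y (hS y hy)).2.2
    rw [IsRoot.def, hp, eval_map]
    exact h2
  have hmin5 : 5 ∣ N → t ∉ IntermediateField.adjoin ℚ
      {(⟨ζ, IntermediateField.mem_adjoin_simple_self ℚ ζ⟩ : F) ^ 5} := by
    rintro ⟨m, hm⟩ hcon
    have hm0 : 0 < m := by omega
    refine hmin m (by omega) ⟨hm0, ?_⟩
    have key : ∀ x ∈ IntermediateField.adjoin ℚ
        {(⟨ζ, IntermediateField.mem_adjoin_simple_self ℚ ζ⟩ : F) ^ 5},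
        (x : ℂ) ∈ IntermediateField.adjoin ℚ {z : ℂ | z ^ m = 1} := by
      intro x hx
      induction hx using IntermediateField.adjoin_induction with
      | mem x hx =>
        rw [Set.mem_singleton_iff] at hx
        rw [hx]
        apply IntermediateField.subset_adjoin
        change (ζ ^ 5) ^ m = 1
        rw [← pow_mul, ← hm]
        exact hζ.pow_eq_one
      | algebraMap x =>
        rw [eq_ratCast]
        push_cast
        exact SubfieldClass.ratCast_mem _ x
      | add x y _ _ hx hy => exact add_mem hx hy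
      | inv x _ hx => exact inv_mem hx
      | mul x y _ _ hx hy => exact mul_mem hx hy
    exact key t hcon
  have hcore := core2 hζF F.val htint hmin5 Z hZs hout' hroot hM
  have hM1 : 1 ≤ M := by
    have := hM ∅ (by simp)
    simpa using this
  by_contra hcon
  push Not at hcon
  have hW : Wt M ≤ 1.2449 := by
    refine (Wt_mono hM1 hcon).trans ?_
    unfold Wt
    norm_num
  have hW1 := one_le_Wt hM1
  have hW2 : Wt M ^ 2 < 25 / 16 := by nlinarith
  have htq : IsIntegral ℚ t := htint.tower_top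
  have hk0 : 0 < (minpoly ℚ t).natDegree := minpoly.natDegree_pos htq
  by_cases hk1 : (minpoly ℚ t).natDegree = 1
  · rw [minpoly.natDegree_eq_one_iff] at hk1
    obtain ⟨q, hq⟩ := hk1
    have h2 : IsIntegral ℤ q := (isIntegral_algebraMap_iff (algebraMap ℚ F).injective).mp
      (by rw [hq]; exact htint)
    obtain ⟨n, hn⟩ := IsIntegrallyClosed.isIntegral_iff.mp h2
    have h3 : Z t + (Z t)⁻¹ = (n : ℂ) := by
      rw [hZt.2.1]
      have h4 : ((t : F) : ℂ) = ((algebraMap ℚ F q : F) : ℂ) := by rw [hq]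
      rw [← hn] at h4
      have h5 : ((t : F) : ℂ) = α + α⁻¹ := rfl
      rw [← h5, h4]
      simp
    have h6 : ‖Z t‖ ≤ M := by
      have := hM {t} (by
        intro y hy
        rw [Finset.mem_singleton] at hy
        exact ⟨1, by rw [hy]; rfl⟩)
      simpa using this
    by_cases h7 : -2 ≤ n ∧ n ≤ 2
    · exact hroot 12 (by norm_num) (pow_twelve hZt0 h3 h7.1 h7.2)
    · have h8 : 3 ≤ |n| := by
        by_contra h9
        push Not at h9
        have := abs_lt.mp h9
        exact h7 ⟨by omega, by omega⟩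
      have h9 : (3 : ℝ) ≤ ‖Z t + (Z t)⁻¹‖ := by
        rw [h3, Complex.norm_intCast]
        exact_mod_cast h8
      have h10 : ‖Z t + (Z t)⁻¹‖ ≤ ‖Z t‖ + 1 := by
        refine (norm_add_le _ _).trans ?_
        rw [norm_inv]
        have := inv_le_one_of_one_le₀ hZt.1
        linarith
      linarith
  · obtain ⟨j, hj⟩ : ∃ j, (minpoly ℚ t).natDegree = j + 2 :=
      ⟨(minpoly ℚ t).natDegree - 2, by omega⟩
    rw [hj] at hcore
    have h4 : (0 : ℝ) < 4 ^ (j + 2) := by positivity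
    have h5 : (5 : ℝ) ^ (j + 2) < 4 ^ (j + 2) * (25 / 16) :=
      lt_of_le_of_lt hcore (mul_lt_mul_of_pos_left hW2 h4)
    have h6 : (4 : ℝ) ^ j ≤ 5 ^ j := pow_le_pow_left₀ (by norm_num) (by norm_num) j
    rw [pow_add, pow_add] at h5
    nlinarith

end Pool.Agent.Results.MP_dc0c68_nt.QuadraticOverAbelian
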